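import Mathlib
import Pool.Agent.R371.QD.Main

/-!
# Every quaternion octic extension of `ℚ` lies in the compositum of the dihedral octic extensions

If `K ⊇ ℚ(√a, √b)` is a `Q₈`-extension and `y` is an element negated by the central involution,
then the four conjugates `y, iy, jy, ky` of `y` form a quaternion whose rotation matrix has entries in
`ℚ/√a`, `ℚ/√b`, `ℚ/√(ab)`.  Writing the rotation through Euler angles gives `y` in terms of square
roots of rational numbers and of elements `x + y √c` generating dihedral extensions.
-/

set_option autoImplicit false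

namespace Pool.Agent.Results.MP_122cec_nt.QuaternionComplete

/-- The compositum of all Galois extensions of `ℚ` (inside the algebraic closure) whose Galois group
is the dihedral group of order `8`. -/
noncomputable def dihedralCompositum : IntermediateField ℚ (AlgebraicClosure ℚ) :=
  sSup {L : IntermediateField ℚ (AlgebraicClosure ℚ) |
    IsGalois ℚ L ∧ Nonempty ((L ≃ₐ[ℚ] L) ≃* DihedralGroup 4)}

/-- **`ℚ_{D₄}` is a `Q₈`-complete field.** -/
theorem result : ∀ K : IntermediateField ℚ (AlgebraicClosure ℚ), IsGalois ℚ K →
    Nonempty ((K ≃ₐ[ℚ] K) ≃* QuaternionGroup 2) → K ≤ dihedralCompositum := by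
  rintro K hK ⟨e⟩
  exact Pool.Agent.R371.QD.quaternion_le e (fun L h1 h2 => le_sSup ⟨h1, h2⟩)

end Pool.Agent.Results.MP_122cec_nt.QuaternionComplete
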